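import Pool.Agent.E8helper84.RM.RM9

/-!
# The weak Mertens bound for almost all twists of the Möbius function

For a multiplicative function `f` put `M_f(u) = ∑_{n ≤ u} μ(n) f(n)` and `I_f(x) = ∫_1^x |M_f(u)/u|² du`; the
weak Mertens hypothesis is `I_1(x) ≤ C log x` for all `x ≥ 2`. There is an absolute constant `C` such that:

1. Let `χ` be a random multiplicative function whose values at the primes are independent, of mean zero and
   bounded by `1` (for instance uniformly distributed signs, or uniformly distributed on the circle). Then for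
   every `λ > 0`, outside an event of probability at most `1/λ`, `I_χ(x) ≤ λ ∏_{p ≤ x} (1 + E|χ(p)|²/p)` for all
   `x ≥ 1` and `I_χ(x) ≤ λ C log x` for all `x ≥ 2`; so the weak Mertens bound holds almost surely.
2. For every `X` and `λ > 0`, for all large `q`, all but at most `φ(q)/λ` of the Dirichlet characters `χ` modulo
   `q` satisfy `I_χ(x) ≤ λ C log x` for all `2 ≤ x ≤ X`; the same for the functions `n ↦ n^(-it)`, `0 ≤ t ≤ T`,
   up to a set of `t` of measure at most `T/λ`, and for the real characters `n ↦ (d/n)` (`n` odd), `1 ≤ d ≤ Y`,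
   up to at most `Y/λ` values of `d`.
3. In the full range: for every `ε > 0` there is `C_ε` such that for every `q ≥ 3` and `λ > 0` all but at most
   `φ(q)/λ` of the Dirichlet characters modulo `q` satisfy `I_χ(x) ≤ λ C_ε log x (1 + log log x)^(1+ε)` for all
   `3 ≤ x ≤ q`.

The loss of the factor `(log log x)^(1+ε)` in 3 is what the union bound over the scales `x = exp(2^k)` costs.
The proof of 1 and 2 avoids it: let `A_N(u)` be the sum of `μ(n) χ(n)` over the `n ≤ u` all of whose prime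
factors are at most `N`. Then `∫_1^∞ |A_N(u)/u|² du / ∏_{p ≤ N} (1 + E|χ(p)|²/p)` is a martingale in `N`, it
bounds `I_χ(x)` for all `x < N + 1`, and Doob's maximal inequality applies at all scales simultaneously.
-/

set_option autoImplicit false

open Filter Topology MeasureTheory ProbabilityTheory

namespace Pool.Agent.E8helper84.Moved.AlmostAllTwistsH84

/-- `M_f(u) = ∑_{n ≤ u} μ(n) f(n)`; for `f = 1` this is the Mertens function -/
noncomputable def M (f : ℕ → ℂ) (u : ℝ) : ℂ :=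
  ∑ n ∈ Finset.Icc 1 ⌊u⌋₊, ((ArithmeticFunction.moebius n : ℤ) : ℂ) * f n

/-- `I_f(x) = ∫_1^x |M_f(u)|² / u² du` -/
noncomputable def I (f : ℕ → ℂ) (x : ℝ) : ℝ := ∫ u in (1 : ℝ)..x, ‖M f u‖ ^ 2 / u ^ 2

/-- `χ` is a random multiplicative function whose values at the primes are independent random variables of
mean zero and of absolute value at most `1` -/
structure RandomTwist {Ω : Type} [MeasurableSpace Ω] (P : Measure Ω) (χ : Ω → ℕ → ℂ) : Prop where
  map_one : ∀ ω, χ ω 1 = 1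
  map_mul : ∀ ω m n, Nat.Coprime m n → χ ω (m * n) = χ ω m * χ ω n
  meas : ∀ p : ℕ, p.Prime → Measurable (fun ω => χ ω p)
  bound : ∀ p : ℕ, p.Prime → ∀ ω, ‖χ ω p‖ ≤ 1
  mean : ∀ p : ℕ, p.Prime → ∫ ω, χ ω p ∂P = 0
  indep : iIndepFun (fun (p : Nat.Primes) ω => χ ω p) P

/-- `n^(-it)` -/
noncomputable def shift (t : ℝ) (n : ℕ) : ℂ := (n : ℂ) ^ (-(t : ℂ) * Complex.I)

/-- the real character `n ↦ (d/n)`, `n` odd (Jacobi symbol), and `0` at the even numbers -/
noncomputable def realChar (d n : ℕ) : ℂ := if n % 2 = 1 then ((jacobiSym (d : ℤ) n : ℤ) : ℂ) else 0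

open Pool.Agent.E8helper84.RM in
lemma I_eq (f : ℕ → ℂ) : I f = If f := rfl

open Pool.Agent.E8helper84.RM in
lemma rnd_of {Ω : Type} [MeasurableSpace Ω] {P : Measure Ω} {χ : Ω → ℕ → ℂ} (h : RandomTwist P χ) :
    Rnd P (fun n ω => χ ω n) := ⟨h.meas, h.bound, h.mean, h.indep⟩

open Pool.Agent.E8helper84.RM in
lemma If_of {Ω : Type} [MeasurableSpace Ω] {P : Measure Ω} {χ : Ω → ℕ → ℂ} (h : RandomTwist P χ) (ω : Ω)
    {x : ℝ} (hx : 1 ≤ x) : I (χ ω) x = Pool.Agent.E8helper84.RM.I (fun n => χ ω n) x := by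
  rw [I_eq]
  exact If_eq (N := ⌊x⌋₊) (fun n _ hs => mult_prod (h.map_one ω) (h.map_mul ω) hs) hx le_rfl

open Pool.Agent.E8helper84.RM in
lemma sharp {Ω : Type} [MeasurableSpace Ω] {P : Measure Ω} [IsProbabilityMeasure P] {χ : Ω → ℕ → ℂ}
    (h : RandomTwist P χ) {l : ℝ} (hl : 0 < l) :
    P {ω | ∃ x : ℝ, 1 ≤ x ∧ l * ∏ p ∈ (Finset.Icc 1 ⌊x⌋₊).filter Nat.Prime,
      (1 + (∫ ω', ‖χ ω' p‖ ^ 2 ∂P) / p) < I (χ ω) x} ≤ ENNReal.ofReal (1 / l) := by
  have hz := rnd_of h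
  have hsub : {ω | ∃ x : ℝ, 1 ≤ x ∧ l * ∏ p ∈ (Finset.Icc 1 ⌊x⌋₊).filter Nat.Prime,
      (1 + (∫ ω', ‖χ ω' p‖ ^ 2 ∂P) / p) < I (χ ω) x} ⊆
      ⋃ n : ℕ, {ω | ∃ k, k ≤ n ∧ l ≤ Zm P (fun n ω => χ ω n) k ω} := by
    rintro ω ⟨x, hx, hlt⟩
    rw [Set.mem_iUnion]
    refine ⟨⌊x⌋₊, ⌊x⌋₊, le_rfl, ?_⟩
    rw [If_of h ω hx] at hlt
    have h1 : Pool.Agent.E8helper84.RM.I (fun n => χ ω n) x ≤ Q ⌊x⌋₊ (fun n => χ ω n) :=
      I_le_Q _ hx (Nat.lt_floor_add_one x)
    have hV := V_pos P (fun n ω => χ ω n) ⌊x⌋₊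
    unfold Zm
    rw [le_div_iff₀ hV]
    exact (hlt.le.trans h1)
  refine (measure_mono hsub).trans ?_
  rw [Directed.measure_iUnion]
  · exact iSup_le fun n => maximal hz hl n
  · refine directed_of_isDirected_le ?_
    intro a b hab ω hω
    obtain ⟨k, hk, h⟩ := hω
    exact ⟨k, hk.trans hab, h⟩

open Pool.Agent.E8helper84.RM in
lemma shift_eq (t : ℝ) {n : ℕ} (hn : n ≠ 0) : shift t n = sh t n := by
  unfold shift sh
  rw [Complex.cpow_def_of_ne_zero (by exact_mod_cast hn)]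
  congr 1
  rw [← Complex.natCast_log]
  push_cast
  ring

open Pool.Agent.E8helper84.RM in
lemma If_shift (t x : ℝ) : I (shift t) x = If (sh t) x := by
  unfold I If
  refine intervalIntegral.integral_congr fun u _ => ?_
  have : M (shift t) u = Mf (sh t) u := by
    unfold M Mf
    refine Finset.sum_congr rfl fun n hn => ?_
    rw [Finset.mem_Icc] at hn
    rw [shift_eq t (by omega)]
  simp only [this]

open scoped Classical in
/-- **Theorem.** -/
theorem result : ∃ C : ℝ, 0 < C ∧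
    -- random twists
    (∀ (Ω : Type) [MeasurableSpace Ω] (P : Measure Ω) [IsProbabilityMeasure P] (χ : Ω → ℕ → ℂ),
      RandomTwist P χ →
        (∀ l : ℝ, 0 < l → P {ω | ∃ x : ℝ, 1 ≤ x ∧ l * ∏ p ∈ (Finset.Icc 1 ⌊x⌋₊).filter Nat.Prime,
          (1 + (∫ ω', ‖χ ω' p‖ ^ 2 ∂P) / p) < I (χ ω) x} ≤ ENNReal.ofReal (1 / l)) ∧
        (∀ l : ℝ, 0 < l → P {ω | ∃ x : ℝ, 2 ≤ x ∧ l * C * Real.log x < I (χ ω) x} ≤
          ENNReal.ofReal (1 / l)) ∧
        ∀ᵐ ω ∂P, ∃ K : ℝ, ∀ x : ℝ, 2 ≤ x → I (χ ω) x ≤ K * Real.log x) ∧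
    -- Dirichlet characters
    (∀ X l : ℝ, 0 < l → ∀ᶠ q : ℕ in atTop, ((Finset.univ.filter fun χ : DirichletCharacter ℂ q =>
      ∃ x : ℝ, 2 ≤ x ∧ x ≤ X ∧ l * C * Real.log x < I (fun n => χ n) x).card : ℝ) ≤ q.totient / l) ∧
    -- vertical shifts
    (∀ X l : ℝ, 0 < l → ∀ᶠ T : ℝ in atTop, volume {t : ℝ | 0 ≤ t ∧ t ≤ T ∧
      ∃ x : ℝ, 2 ≤ x ∧ x ≤ X ∧ l * C * Real.log x < I (shift t) x} ≤ ENNReal.ofReal (T / l)) ∧
    -- real characters
    (∀ X l : ℝ, 0 < l → ∀ᶠ Y : ℕ in atTop, (((Finset.Icc 1 Y).filter fun d : ℕ =>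
      ∃ x : ℝ, 2 ≤ x ∧ x ≤ X ∧ l * C * Real.log x < I (realChar d) x).card : ℝ) ≤ Y / l) ∧
    -- all characters modulo `q`, in the full range `x ≤ q`
    (∀ ε : ℝ, 0 < ε → ∃ C' : ℝ, 0 < C' ∧ ∀ q : ℕ, 3 ≤ q → ∀ l : ℝ, 0 < l →
      ((Finset.univ.filter fun χ : DirichletCharacter ℂ q => ∃ x : ℝ, 3 ≤ x ∧ x ≤ q ∧
        l * C' * Real.log x * (1 + Real.log (Real.log x)) ^ (1 + ε) < I (fun n => χ n) x).card : ℝ) ≤
          q.totient / l) := by
  obtain ⟨C, hC, hp⟩ := Pool.Agent.E8helper84.RM.prod_bound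
  refine ⟨4 * C, by positivity, ?_, ?_, ?_, ?_, ?_⟩
  · intro Ω _ P _ χ h
    refine ⟨fun l hl => sharp h hl, fun l hl => ?_, ?_⟩
    · refine le_trans (measure_mono ?_) (Pool.Agent.E8helper84.RM.all_x (rnd_of h) hC hp hl)
      rintro ω ⟨x, hx, hlt⟩
      refine ⟨x, hx, ?_⟩
      rw [If_of h ω (by linarith)] at hlt
      refine lt_of_le_of_lt ?_ hlt
      have hlog : 0 < Real.log x := Real.log_pos (by linarith)
      have : 0 ≤ l * C * Real.log x := by positivity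
      linarith
    · filter_upwards [Pool.Agent.E8helper84.RM.almost_surely (rnd_of h)] with ω hω
      obtain ⟨K, hK⟩ := hω
      refine ⟨K, fun x hx => ?_⟩
      rw [If_of h ω (by linarith)]
      exact hK x hx
  · intro X l hl
    exact Pool.Agent.E8helper84.RM.chars hC hp X hl
  · intro X l hl
    filter_upwards [Pool.Agent.E8helper84.RM.shifts hC hp X hl] with T hT
    simp only [If_shift]
    exact hT
  · intro X l hl
    exact Pool.Agent.E8helper84.RM.reals hC hp X hl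
  · intro ε hε
    exact Pool.Agent.E8helper84.RM.chars_full hε

end Pool.Agent.E8helper84.Moved.AlmostAllTwistsH84
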